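import Mathlib
import Pool.Agent.R473.DW.Mzw

set_option autoImplicit false

/-!
# Multiple zeta values of one large weight: linear forms with `S`-unit coefficients, and digits
-/

namespace Pool.Agent.Results.MP_56e040_nt.EqualWeightDigits

open Pool.Agent.R473.DW Pool.Agent.Y760.RT Pool.Agent.TH507.ZS Pool.Agent.R473.TB

/-- the multiple zeta value `ζ(k - |w|, w)` of weight `k`, for a tuple `w` of positive integers;
`mzv [s_1, …, s_r]` is the sum of `∏ n_i ^ (-s_i)` over `n_1 > … > n_r ≥ 1` -/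
noncomputable def val (k : ℕ) (w : List ℕ+) : ℝ :=
  mzv ((k - (w.map fun a : ℕ+ => (a : ℕ)).sum) :: w.map fun a : ℕ+ => (a : ℕ))

/-- the `k`-th digit after the point of `x` in base `b` (`k = 0` is the first one) -/
noncomputable def digit (b : ℕ) (x : ℝ) (k : ℕ) : ℤ := ⌊(b : ℝ) ^ (k + 1) * x⌋ % b

/-- the number of different blocks of `n` consecutive digits of `x` in base `b` -/
noncomputable def blocks (b : ℕ) (x : ℝ) (n : ℕ) : ℕ :=
  (Set.range fun i : ℕ => fun j : Fin n => digit b x (i + j)).ncard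

/-- `D` is a sum of `R` terms `a ∏ p ^ k(p)` over `p ∈ S`, with integers `|a| ≤ R` and integers
`|k(p)| ≤ X` -/
def SUnitSum (S : Finset ℕ) (R : ℕ) (X : ℝ) (D : ℚ) : Prop :=
  ∃ (a : Fin R → ℤ) (k : Fin R → ℕ → ℤ), (∀ r, |a r| ≤ R) ∧ (∀ r, ∀ p ∈ S, |(k r p : ℝ)| ≤ X) ∧
    D = ∑ r, (a r : ℚ) * ∏ p ∈ S, (p : ℚ) ^ k r p

/-- **Result.** Let `Λ` be a finite set of tuples of positive integers, and for a weight `k` consider
the multiple zeta values `ζ(k - |w|, w)`, `w ∈ Λ`, of weight `k`.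
(1) For every finite set `S` of primes there is `K ≥ 2` such that for all `R`, `C` and `B > 1`, all
large `k`, all `D_w`, not all zero, which are sums of at most `R` `S`-units of height
exponential in `C k`, and all integers `p`:
`|∑ D_w ζ(k - |w|, w) - p| > B ^ (-k) min(1, |D_u| K ^ (-k))` for every `u ∈ Λ`.
(2) For every base `b` there is `κ` such that for all `ε > 0` and `C` and all large `k` no word of
at least `ε k` digits occurs at two different places, not both before `κ k`, in the first `C k`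
digits of the expansions of these numbers in base `b`.
(3) For every base `b`, every `w` and `C` the expansion of `ζ(k - |w|, w)` in base `b` has more than
`C k` different blocks of `k` digits, for all large `k`. -/
theorem result (Λ : Finset (List ℕ+)) :
    (∀ S : Finset ℕ, (∀ p ∈ S, p.Prime) → ∃ K : ℕ, 2 ≤ K ∧ ∀ (R : ℕ) (C B : ℝ), 1 < B →
      ∃ k0 : ℕ, ∀ k : ℕ, k0 ≤ k → ∀ D : Λ → ℚ, (∀ w, SUnitSum S R (C * k) (D w)) →
      (∃ w, D w ≠ 0) → ∀ (p : ℤ) (u : Λ),
      (B ^ k)⁻¹ * min 1 (|(D u : ℝ)| / (K : ℝ) ^ k) < |∑ w : Λ, (D w : ℝ) * val k w - p|) ∧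
    (∀ b : ℕ, 2 ≤ b → ∃ κ : ℝ, 0 ≤ κ ∧ ∀ ε C : ℝ, 0 < ε → ∃ k0 : ℕ, ∀ k : ℕ, k0 ≤ k →
      ∀ (u w : Λ) (i j : ℕ), (i : ℝ) ≤ C * k → (j : ℝ) ≤ C * k →
      κ * k ≤ max i j → (u, i) ≠ (w, j) → ∃ l : ℕ, (l : ℝ) < ε * k ∧
        digit b (val k u) (i + l) ≠ digit b (val k w) (j + l)) ∧
    (∀ b : ℕ, 2 ≤ b → ∀ (w : List ℕ+) (C : ℝ), ∃ k0 : ℕ, ∀ k : ℕ, k0 ≤ k →
      C * k < blocks b (val k w) k) := by
  have hinj : Function.Injective fun w : Λ =>
      (((w : List ℕ+).map fun a : ℕ+ => (a : ℕ)).sum, (w : List ℕ+)) := fun s s' hs =>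
    Subtype.ext (Prod.ext_iff.1 hs).2
  refine ⟨fun S hS => ?_, fun b hb => ?_, fun b hb w C => ?_⟩
  · exact wt_forms _ _ hinj hS
  · exact wt_digits _ _ hinj hb
  · exact wt_blocks w _ hb C

end Pool.Agent.Results.MP_56e040_nt.EqualWeightDigits
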