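import Mathlib
import Pool.Agent.R390.MZ.Low

set_option autoImplicit false

/-!
# Three cases for the dimensions of the spaces of multiple zeta values

By Brown's theorem the ring `⨁ Z_k` is the quotient of a weighted polynomial ring, with `d_k`
monomials of weight `k`, by a homogeneous prime ideal.  If this ideal is `0`, Zagier's formula holds.
If it is principal, then `dim Z_k = d_k - d_(k-n)` for all `k`.  In the remaining case this holds for
all `k < m`, and `dim Z_k ≤ d_k - d_(k-n) - d_(k-m) + d_(k-n-m)` for all `k`.  So the formula, if it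
holds in infinitely many weights, holds in all weights.
-/

open Pool.Agent.R390.MZ

namespace Pool.Agent.Results.MP_56e040_nt.HilbertTrichotomy

/-- `Z n` is the `ℚ`-span of all multiple zeta values
`ζ(s_1, …, s_k) = ∑_{m_1 > … > m_k ≥ 1} ∏ m_i ^ (-s_i)` (`s_i ≥ 1`, `s_1 ≥ 2`) of weight `n`; the
empty index has the value `1` and the weight `0` -/
noncomputable def Z (n : ℕ) : Submodule ℚ ℝ :=
  Submodule.span ℚ
    {x : ℝ | ∃ k : ℕ, ∃ s : Fin k → ℕ,
      (∀ i, 1 ≤ s i) ∧ (∀ h : 0 < k, 2 ≤ s ⟨0, h⟩) ∧ (∑ i, s i) = n ∧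
      x = ∑' m : {m : Fin k → ℕ // StrictAnti m ∧ ∀ i, 0 < m i},
            ∏ i, (((m.1 i : ℕ) : ℝ) ^ (s i))⁻¹}

lemma Z_ne_bot {k : ℕ} (hk : k ≠ 1) : Z k ≠ ⊥ := Zs_ne_bot hk

/-- Let `d_0 = 1`, `d_1 = 0`, `d_2 = 1`, `d_k = d_(k-2) + d_(k-3)` and `d_k = 0` for `k < 0`. Assume
Brown's theorem (`Gen Z dz`). Then one of the following holds.
(i) `dim Z_k = d_k` for all `k`.
(ii) There is `n ≥ 5` with `dim Z_k = d_k - d_(k-n)` for all `k`.
(iii) There are `m ≥ n ≥ 5` with `dim Z_k = d_k - d_(k-n)` for all `k < m`, and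
`dim Z_k ≤ d_k - d_(k-n) - d_(k-m) + d_(k-n-m)` for all `k`.
In (ii) and (iii) `dim Z_k < d_k` for all `k ≥ n + 2`. -/
theorem result (hB : Gen Z dz) :
    (∀ k, Module.finrank ℚ (Z k) = dz k) ∨
    (∃ n, 5 ≤ n ∧ (∀ k, n + 2 ≤ k → Module.finrank ℚ (Z k) < dz k) ∧
      ∀ k, Module.finrank ℚ (Z k) + sh dz n k = dz k) ∨
    (∃ n m, 5 ≤ n ∧ n ≤ m ∧ (∀ k, n + 2 ≤ k → Module.finrank ℚ (Z k) < dz k) ∧
      (∀ k < m, Module.finrank ℚ (Z k) + sh dz n k = dz k) ∧
      ∀ k, Module.finrank ℚ (Z k) + sh dz n k + sh dz m k ≤ dz k + sh dz (n + m) k) :=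
  tri_Z hB (Z_ne_bot (by norm_num)) (Z_ne_bot (by norm_num)) (Z_ne_bot (by norm_num))
    (Z_ne_bot (by norm_num))

end Pool.Agent.Results.MP_56e040_nt.HilbertTrichotomy
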