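import Mathlib
import Pool.Agent.R404.WZ.N

/-!
# Zagier's conjecture: `N ^ η` multiple zeta values of weight `N` without small relations, `η < 1`

Let `0 < η < 1`, `γ < 1 - η` and `ε > 0`. There is a number `D` such that for every large `N` there are
at least `N ^ η` indices of weight `N` and depth `D`, with all arguments at least `N / (2 D)`, such that
no nonzero integral combination of the corresponding multiple zeta values with coefficients of
absolute value at most `2 ^ (N ^ γ)` is a real combination, with coefficients of absolute value at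
most `C ^ N`, of multiple zeta values of weight `N` with at least `ε N` arguments `≥ 2`.
-/

set_option autoImplicit false

namespace Pool.Agent.Results.MP_56e040_nt.ManyTerms

/-- `trunc [s_1, ..., s_r] m` is the sum of `∏ n_i ^ (-s_i)` over `m > n_1 > ... > n_r ≥ 1` -/
noncomputable def trunc : List ℕ → ℕ → ℝ
  | [], _ => 1
  | s :: l, m => ∑ j ∈ Finset.Ico 1 m, trunc l j / (j : ℝ) ^ s

/-- the multiple zeta value `ζ(s_1, ..., s_r)`, the sum of `∏ n_i ^ (-s_i)` over
`n_1 > ... > n_r ≥ 1` -/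
noncomputable def mzv : List ℕ → ℝ
  | [] => 1
  | s :: l => ∑' m : ℕ, trunc l (m + 1) / ((m + 1 : ℕ) : ℝ) ^ s

/-- the admissible indices of weight `N` -/
def Admissible (N : ℕ) (w : List ℕ) : Prop :=
  (∀ s ∈ w, 1 ≤ s) ∧ (∀ s ∈ w.head?, 2 ≤ s) ∧ w.sum = N

/-- the number of arguments `≥ 2` -/
def height (w : List ℕ) : ℕ := w.countP (fun s => decide (2 ≤ s))

lemma trunc_eq (w : List ℕ) : ∀ m, trunc w m = Pool.Agent.Y760.ZG.hr w m := by
  induction w with
  | nil => intro m; rw [trunc, Pool.Agent.Y760.ZG.hr_nil]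
  | cons s w ih =>
    intro m
    rw [trunc, Pool.Agent.Y760.ZG.hr_cons]
    exact Finset.sum_congr rfl fun j _ => by rw [ih]

lemma mzv_eq : mzv = Pool.Agent.Y760.ZG.mz := by
  funext w
  cases w with
  | nil => rw [mzv, Pool.Agent.Y760.ZG.mz]
  | cons s w =>
    rw [mzv, Pool.Agent.Y760.ZG.mz]
    exact tsum_congr fun m => by rw [trunc_eq]

/-- Let `0 < η < 1`, `γ + η < 1`, `0 < ε` and let `C` be a real number. There is a number `D ≥ 2`
such that for every large `N` there is a set `T` of at least `N ^ η` admissible indices of weight `N`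
and depth `D`, with all arguments at least `N / (2 D)`, with the following property. For all
integers `c_w` (`w ∈ T`), not all zero, with `|c_w| ≤ 2 ^ (N ^ γ)`, all finite sets `H` of admissible
indices of weight `N` with at least `ε N` arguments `≥ 2` and all real numbers `b_h` with
`|b_h| ≤ C ^ N`: `|∑_T c_w ζ(w) - ∑_H b_h ζ(h)| > N ^ (-ε N)`. -/
theorem result (C η γ ε : ℝ) (hη : 0 < η) (hη1 : η < 1) (hγ : γ + η < 1) (hε : 0 < ε) :
    ∃ D N0 : ℕ, 2 ≤ D ∧ ∀ N : ℕ, N0 ≤ N → ∃ T : Finset (List ℕ), (N : ℝ) ^ η ≤ T.card ∧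
      (∀ w ∈ T, Admissible N w ∧ w.length = D ∧ ∀ s ∈ w, N ≤ 2 * D * s) ∧
      ∀ c : List ℕ → ℤ, (∃ w ∈ T, c w ≠ 0) →
      (∀ w ∈ T, |(c w : ℝ)| ≤ (2 : ℝ) ^ ((N : ℝ) ^ γ)) →
      ∀ H : Finset (List ℕ), (∀ h ∈ H, Admissible N h ∧ ε * N ≤ height h) →
      ∀ b : List ℕ → ℝ, (∀ h ∈ H, |b h| ≤ C ^ N) →
      ((N : ℝ) ^ (ε * N))⁻¹ < |∑ w ∈ T, (c w : ℝ) * mzv w - ∑ h ∈ H, b h * mzv h| := by
  rw [mzv_eq]
  obtain ⟨D, hD, N0, h0⟩ := Pool.Agent.R404.WZ.asyMF γ ε 1 C η hη hη1 hγ hε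
  refine ⟨D, max N0 (4 * D + 1), hD, fun N hN => ?_⟩
  obtain ⟨T, h1, h2, h3⟩ := h0 N (by omega)
  refine ⟨T, h1, fun w hw => ?_, fun c hc hcC H hH b hb => ?_⟩
  · obtain ⟨e1, e2, e3⟩ := h2 w hw
    have e4 : ∀ s ∈ w, 2 ≤ s := by
      intro s hs
      by_contra hcon
      push Not at hcon
      have f1 := e3 s hs
      have f2 : 2 * D * s ≤ 2 * D * 2 := Nat.mul_le_mul_left _ hcon.le
      omega
    exact ⟨⟨fun s hs => le_trans (by norm_num) (e4 s hs), fun s hs =>
      e4 s (List.mem_of_mem_head? hs), e2⟩, e1, e3⟩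
  · have h4 := h3 0 c (Or.inr hc) hcC H (fun h hh => ⟨(hH h hh).1.1, (hH h hh).1.2.1, by
      rw [(hH h hh).1.2.2, one_mul], (hH h hh).2⟩) b hb
    rwa [Int.cast_zero, zero_add] at h4

end Pool.Agent.Results.MP_56e040_nt.ManyTerms
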