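import Mathlib
import Pool.Agent.R390.MZ.Super

set_option autoImplicit false

/-!
# The defect in Zagier's dimension conjecture is supermodular

Let `δ_k = d_k - dim Z_k`.  Then `δ_(k+i) + δ_(k+j) ≤ δ_(k+i+j) + δ_k` for all `k` and all `i ≥ 5`,
`j ≥ 2`, and also for `{i, j} = {2, 3}` and `{3, 4}`.  For `k = 0`: the defect is superadditive.  For
`{i, j} = {2, 3}`: `dim Z_(k+5) ≤ dim Z_(k+3) + dim Z_(k+2) + δ_k`.
-/

open Pool.Agent.R390.MZ

namespace Pool.Agent.Results.MP_56e040_nt.SupermodularDefect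

/-- `Z n` is the `ℚ`-span of all multiple zeta values
`ζ(s_1, …, s_k) = ∑_{m_1 > … > m_k ≥ 1} ∏ m_i ^ (-s_i)` (`s_i ≥ 1`, `s_1 ≥ 2`) of weight `n`; the
empty index has the value `1` and the weight `0` -/
noncomputable def Z (n : ℕ) : Submodule ℚ ℝ :=
  Submodule.span ℚ
    {x : ℝ | ∃ k : ℕ, ∃ s : Fin k → ℕ,
      (∀ i, 1 ≤ s i) ∧ (∀ h : 0 < k, 2 ≤ s ⟨0, h⟩) ∧ (∑ i, s i) = n ∧
      x = ∑' m : {m : Fin k → ℕ // StrictAnti m ∧ ∀ i, 0 < m i},
            ∏ i, (((m.1 i : ℕ) : ℝ) ^ (s i))⁻¹}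

/-- the defect `δ_k = d_k - dim Z_k` in Zagier's conjecture -/
noncomputable def defect (k : ℕ) : ℤ := dz k - Module.finrank ℚ (Z k)

lemma Z_ne_bot {k : ℕ} (hk : k ≠ 1) : Z k ≠ ⊥ := Zs_ne_bot hk

/-- Assume Brown's theorem (`Gen Z dz`). Then the defects satisfy
`δ_(k+i) + δ_(k+j) ≤ δ_(k+i+j) + δ_k` for all `k` and all `i ≥ 5`, `j ≥ 2`, and for `(i, j) = (2, 3)`
and `(i, j) = (4, 3)`. -/
theorem result (hB : Gen Z dz) (i j : ℕ)
    (hij : (5 ≤ i ∧ 2 ≤ j) ∨ (i = 2 ∧ j = 3) ∨ (i = 4 ∧ j = 3)) (k : ℕ) :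
    defect (k + i) + defect (k + j) ≤ defect (k + i + j) + defect k := by
  obtain ⟨σ, wt, x, hd, hZ⟩ := hB
  have h := super_hom hd hZ (fun k hk => Z_ne_bot hk) hij k
  have hfin := finite_H hd
  have e : ∀ l, (Module.finrank ℚ (pt (H wt) (Ph wt x) l) : ℤ) = defect l := by
    intro l
    have h1 := finrank_map_add (finrank_H hd) (MvPolynomial.aeval (R := ℚ) x).toLinearMap
      (P := Ph wt x) (k := l) (fun f hf => mem_Ph_of_mem_H hf)
    rw [← Z_eq hZ] at h1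
    rw [defect, ← h1]
    push_cast
    ring
  rw [← e, ← e, ← e, ← e]
  exact_mod_cast h

end Pool.Agent.Results.MP_56e040_nt.SupermodularDefect
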